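import Pool.Agent.Q106.KB.Unif

/-!
# The uniform law: the union bound
-/

set_option autoImplicit false

namespace Pool.Agent.Q106.KB

open Finset MeasureTheory ProbabilityTheory Filter Pool.Agent.Q120.GM
open scoped Topology

/-- The curves with coefficients up to `m`. -/
noncomputable def curves (m : ℕ) : Finset (WeierstrassCurve ℤ) := by
  classical
  exact (Icc (-(m : ℤ)) m ×ˢ Icc (-(m : ℤ)) m ×ˢ Icc (-(m : ℤ)) m ×ˢ Icc (-(m : ℤ)) m ×ˢ Icc (-(m : ℤ)) m).image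
    (fun a => ⟨a.1, a.2.1, a.2.2.1, a.2.2.2.1, a.2.2.2.2⟩)

theorem card_curves (m : ℕ) : (curves m).card ≤ (2 * m + 1) ^ 5 := by
  classical
  unfold curves
  refine card_image_le.trans ?_
  simp only [card_product, Int.card_Icc]
  have : (((m : ℤ) + 1 - -(m : ℤ)).toNat) = 2 * m + 1 := by omega
  rw [this]
  exact le_of_eq (by ring)

theorem mem_curves {E : WeierstrassCurve ℤ} {m : ℕ} (h : ht E = m) : E ∈ curves m := by
  classical
  unfold curves
  unfold ht at h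
  rw [mem_image]
  refine ⟨(E.a₁, E.a₂, E.a₃, E.a₄, E.a₆), ?_, rfl⟩
  simp only [mem_product, mem_Icc]
  omega

theorem log_ht (E : WeierstrassCurve ℤ) : 1 ≤ Real.log (ht E) := by
  have h1 : (3 : ℝ) ≤ ht E := by
    have : 3 ≤ ht E := by
      unfold ht
      omega
    exact_mod_cast this
  rw [Real.le_log_iff_exp_le (by linarith)]
  have := Real.exp_one_lt_d9
  linarith

theorem summable_exp {ε : ℝ} (hε : 0 < ε) {b : ℝ} (hb : 0 < b) :
    Summable (fun x : ℕ => (x : ℝ) * Real.exp (-b * (x : ℝ) ^ ε)) := by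
  have h1 : Tendsto (fun x : ℕ => (((x : ℝ) ^ ε) ^ (3 / ε)) * Real.exp (-b * (x : ℝ) ^ ε)) atTop (𝓝 0) :=
    (tendsto_rpow_mul_exp_neg_mul_atTop_nhds_zero (3 / ε) b hb).comp
      ((tendsto_rpow_atTop hε).comp tendsto_natCast_atTop_atTop)
  have h2 : Summable (fun n : ℕ => 1 / (n : ℝ) ^ 2) := Real.summable_one_div_nat_pow.2 (by norm_num)
  refine summable_of_isBigO_nat h2 ?_
  refine Asymptotics.IsBigO.of_bound 1 ?_
  filter_upwards [h1.eventually_le_const (show (0 : ℝ) < 1 by norm_num), eventually_ge_atTop 1] with x h3 h4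
  have hx0 : (0 : ℝ) < x := by exact_mod_cast h4
  have e1 : ((x : ℝ) ^ ε) ^ (3 / ε) = (x : ℝ) ^ 3 := by
    rw [← Real.rpow_mul hx0.le, mul_div_cancel₀ _ hε.ne', show (3 : ℝ) = ((3 : ℕ) : ℝ) by norm_num, Real.rpow_natCast]
  rw [e1] at h3
  rw [Real.norm_of_nonneg (by positivity), Real.norm_of_nonneg (by positivity), one_mul, le_div_iff₀ (by positivity)]
  refine le_trans (le_of_eq ?_) h3
  ring

section

variable {Ω : Type*} [MeasurableSpace Ω] {μ : Measure Ω} [IsProbabilityMeasure μ] {A : Ω → Set ℕ} {Q : ℕ}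

/-- The bad event. -/
def bad (A : Ω → Set ℕ) (Q : ℕ) (ε : ℝ) (x₀ : ℕ) (y : ℕ × ℕ) : Set Ω :=
  {ω | (x₀ ≤ y.1 ∧ 3 ≤ y.2 ∧ Real.log y.2 ≤ (y.1 : ℝ) ^ (1 / 2 - 2 * ε)) ∧ ∃ E ∈ curves y.2, ∃ t ∈ Icc 1 (10 * y.1),
    1 / 2 * ((y.1 : ℝ) ^ (3 / 4 + ε) * √(Real.log y.2)) ≤ |kob (A ω) E t y.1 - mn Q E t y.1|}

theorem bad_le (hA : IsModel μ (level Q) A) {ε : ℝ} {x₀ : ℕ} (hx₀ : 1 ≤ x₀)
    (hx : ∀ x : ℕ, x₀ ≤ x → 7 ≤ (x : ℝ) ^ (2 * ε) / 544) (y : ℕ × ℕ) :
    μ.real (bad A Q ε x₀ y) ≤ (4860 * Real.exp 7 * ((y.1 : ℝ) * Real.exp (-(1 / 544) * (y.1 : ℝ) ^ (2 * ε)))) *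
      (1 / (y.2 : ℝ) ^ 2) := by
  classical
  obtain ⟨x, m⟩ := y
  simp only
  by_cases hc : x₀ ≤ x ∧ 3 ≤ m ∧ Real.log m ≤ (x : ℝ) ^ (1 / 2 - 2 * ε)
  swap
  · have : bad A Q ε x₀ (x, m) = ∅ := by
      unfold bad
      ext ω
      simp only [Set.mem_setOf_eq, Set.mem_empty_iff_false, iff_false]
      rintro ⟨h, _⟩
      exact hc h
    rw [this, measureReal_empty]
    positivity
  obtain ⟨h1, h2, h3⟩ := hc
  have hx1 : 1 ≤ x := hx₀.trans h1
  have hxr : (1 : ℝ) ≤ x := by exact_mod_cast hx1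
  have hm3 : (3 : ℝ) ≤ m := by exact_mod_cast h2
  have hlm : 1 ≤ Real.log m := by
    rw [Real.le_log_iff_exp_le (by linarith)]
    have := Real.exp_one_lt_d9
    linarith
  have hsub : bad A Q ε x₀ (x, m) ⊆ ⋃ E ∈ curves m, ⋃ t ∈ Icc 1 (10 * x),
      {ω | 1 / 2 * ((x : ℝ) ^ (3 / 4 + ε) * √(Real.log m)) ≤ |kob (A ω) E t x - mn Q E t x|} := by
    rintro ω ⟨_, E, hE, t, ht, h⟩
    simp only [Set.mem_iUnion]
    exact ⟨E, hE, t, ht, h⟩
  have hb := hx x h1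
  obtain ⟨Y, hY⟩ : ∃ Y, Y = (x : ℝ) ^ (2 * ε) / 544 := ⟨_, rfl⟩
  rw [← hY] at hb
  have hone : ∀ E ∈ curves m, ∀ t ∈ Icc 1 (10 * x),
      μ.real {ω | 1 / 2 * ((x : ℝ) ^ (3 / 4 + ε) * √(Real.log m)) ≤ |kob (A ω) E t x - mn Q E t x|} ≤
        2 * Real.exp (-(Y * Real.log m)) := by
    intro E _ t ht
    rw [mem_Icc] at ht
    refine (one_fail hA ht.1 hx1 hlm h3).trans (le_of_eq ?_)
    rw [hY]
    congr 2
    ring
  calc μ.real (bad A Q ε x₀ (x, m)) ≤ _ := measureReal_mono hsub (measure_ne_top μ _)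
    _ ≤ ∑ E ∈ curves m, ∑ t ∈ Icc 1 (10 * x),
        μ.real {ω | 1 / 2 * ((x : ℝ) ^ (3 / 4 + ε) * √(Real.log m)) ≤ |kob (A ω) E t x - mn Q E t x|} :=
        (measureReal_biUnion_finset_le _ _).trans (sum_le_sum (fun E _ => measureReal_biUnion_finset_le _ _))
    _ ≤ ∑ E ∈ curves m, ∑ t ∈ Icc 1 (10 * x), 2 * Real.exp (-(Y * Real.log m)) :=
        sum_le_sum (fun E hE => sum_le_sum (fun t ht => hone E hE t ht))
    _ = (curves m).card * (10 * x * (2 * Real.exp (-(Y * Real.log m)))) := by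
        rw [sum_const, sum_const, nsmul_eq_mul, nsmul_eq_mul, Nat.card_Icc]
        have : 10 * x + 1 - 1 = 10 * x := by omega
        rw [this]
        push_cast
        ring
    _ ≤ (3 * (m : ℝ)) ^ 5 * (10 * x * (2 * Real.exp (-(Y * Real.log m)))) := by
        refine mul_le_mul_of_nonneg_right ?_ (by positivity)
        have e1 : ((curves m).card : ℝ) ≤ ((2 * m + 1 : ℕ) : ℝ) ^ 5 := by exact_mod_cast card_curves m
        refine e1.trans (pow_le_pow_left₀ (Nat.cast_nonneg _) ?_ 5)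
        push_cast
        linarith
    _ ≤ _ := by
        have hm0 : (0 : ℝ) < m := by linarith
        have e1 : Real.exp (-(Y * Real.log m)) ≤ Real.exp (7 - Y) * (1 / (m : ℝ) ^ 7) := by
          have e2 : -(Y * Real.log m) ≤ (7 - Y) + -(7 * Real.log m) := by nlinarith
          have e3 : Real.exp (-(7 * Real.log m)) = 1 / (m : ℝ) ^ 7 := by
            rw [Real.exp_neg, one_div, show (7 : ℝ) * Real.log m = ((7 : ℕ) : ℝ) * Real.log m by norm_num,
              ← Real.log_pow, Real.exp_log (by positivity)]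
          calc Real.exp (-(Y * Real.log m)) ≤ Real.exp ((7 - Y) + -(7 * Real.log m)) := Real.exp_le_exp.2 e2
            _ = _ := by rw [Real.exp_add, e3]
        have e4 : Real.exp (7 - Y) = Real.exp 7 * Real.exp (-(1 / 544) * (x : ℝ) ^ (2 * ε)) := by
          rw [← Real.exp_add]
          congr 1
          rw [hY]
          ring
        rw [e4] at e1
        calc (3 * (m : ℝ)) ^ 5 * (10 * x * (2 * Real.exp (-(Y * Real.log m)))) ≤
            (3 * (m : ℝ)) ^ 5 * (10 * x * (2 * (Real.exp 7 * Real.exp (-(1 / 544) * (x : ℝ) ^ (2 * ε)) * (1 / (m : ℝ) ^ 7)))) := by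
              gcongr
          _ = _ := by
              field_simp
              norm_num

/-- **The uniform law, for one exponent.** -/
theorem unif_one (hA : IsModel μ (level Q) A) {ε : ℝ} (hε : 0 < ε) :
    ∀ᵐ ω ∂μ, ∀ᶠ x : ℕ in atTop, ∀ E : WeierstrassCurve ℤ, Real.log (ht E) ≤ (x : ℝ) ^ (1 / 2 - 2 * ε) → ∀ t, 1 ≤ t →
      |kob (A ω) E t x - pred Q E t x| ≤ (x : ℝ) ^ (3 / 4 + ε) * √(Real.log (ht E)) := by
  have hlim : Tendsto (fun x : ℕ => (x : ℝ) ^ (2 * ε) / 544) atTop atTop :=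
    ((tendsto_rpow_atTop (by positivity)).comp tendsto_natCast_atTop_atTop).atTop_div_const (by norm_num)
  obtain ⟨x₁, hx₁⟩ := eventually_atTop.1 (hlim.eventually_ge_atTop 7)
  obtain ⟨x₀, hx₀⟩ : ∃ x₀, x₀ = x₁ + 1 := ⟨_, rfl⟩
  have hxx : ∀ x : ℕ, x₀ ≤ x → 7 ≤ (x : ℝ) ^ (2 * ε) / 544 := fun x hx => hx₁ x (by omega)
  have hsum : Summable (fun y : ℕ × ℕ => (4860 * Real.exp 7 * ((y.1 : ℝ) * Real.exp (-(1 / 544) * (y.1 : ℝ) ^ (2 * ε)))) *
      (1 / (y.2 : ℝ) ^ 2)) := by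
    refine Summable.mul_of_nonneg ((summable_exp (by positivity) (by norm_num)).mul_left _)
      (Real.summable_one_div_nat_pow.2 (by norm_num)) ?_ ?_
    · intro x
      simp only [Pi.zero_apply]
      positivity
    · intro x
      simp only [Pi.zero_apply]
      positivity
  have hfin : ∑' y, μ (bad A Q ε x₀ y) ≠ ⊤ := by
    refine ne_top_of_le_ne_top hsum.tsum_ofReal_lt_top.ne (ENNReal.tsum_le_tsum (fun y => ?_))
    rw [← ofReal_measureReal]
    exact ENNReal.ofReal_le_ofReal (bad_le hA (by omega) hxx y)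
  obtain ⟨C, hC0, hC⟩ := mn_pred Q
  have hlim2 : Tendsto (fun x : ℕ => (x : ℝ) ^ (1 / 4 + ε)) atTop atTop :=
    (tendsto_rpow_atTop (by positivity)).comp tendsto_natCast_atTop_atTop
  filter_upwards [ae_finite_setOf_mem hfin] with ω hω
  obtain ⟨x₂, hx₂⟩ : ∃ x₂ : ℕ, ∀ y : ℕ × ℕ, ω ∈ bad A Q ε x₀ y → y.1 ≤ x₂ := by
    obtain ⟨b, hb⟩ := (hω.image Prod.fst).bddAbove
    exact ⟨b, fun y hy => hb (Set.mem_image_of_mem _ hy)⟩
  filter_upwards [eventually_ge_atTop (x₂ + 1), eventually_ge_atTop x₀, hlim2.eventually_ge_atTop (2 * C)] with x h1 h2 h3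
  intro E hE t ht1
  have hx1 : 1 ≤ x := by omega
  have hxr : (1 : ℝ) ≤ x := by exact_mod_cast hx1
  have hx0 : (0 : ℝ) < x := by linarith
  have hs1 : 1 ≤ √(Real.log (ht E)) := by
    rw [Real.one_le_sqrt]
    exact log_ht E
  obtain ⟨P, hP⟩ : ∃ P, P = (x : ℝ) ^ (3 / 4 + ε) * √(Real.log (ht E)) := ⟨_, rfl⟩
  have hP0 : 0 < P := by rw [hP]; positivity
  have hmain : |kob (A ω) E t x - mn Q E t x| ≤ 1 / 2 * P := by
    by_cases htx : t ≤ 10 * x
    · by_contra hcon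
      push Not at hcon
      have hb : ω ∈ bad A Q ε x₀ (x, ht E) := by
        refine ⟨⟨h2, ?_, hE⟩, E, mem_curves rfl, t, mem_Icc.2 ⟨ht1, htx⟩, ?_⟩
        · unfold ht
          simp only
          omega
        · rw [hP] at hcon
          exact hcon.le
      have := hx₂ _ hb
      simp only at this
      omega
    · have he : PP E t x = ∅ := PP_empty (by omega)
      have e1 : mn Q E t x = 0 := by
        unfold mn
        rw [he, sum_empty]
      have e2 : kob (A ω) E t x = 0 := by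
        unfold kob
        have : {p : ℕ | p ≤ x ∧ Good E p ∧ t ∣ pts E p ∧ pts E p / t ∈ A ω} = ∅ := by
          ext p
          simp only [Set.mem_setOf_eq, Set.mem_empty_iff_false, iff_false]
          rintro ⟨k1, k2, k3, _⟩
          have : p ∈ PP E t x := mem_PP.2 ⟨k1, k2, k3⟩
          rw [he] at this
          simp at this
        rw [this]
        simp
      rw [e1, e2, sub_zero, abs_zero]
      linarith
  have h4 := hC E t x ht1 hx1
  have h5 : C * √(x : ℝ) ≤ 1 / 2 * P := by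
    have e1 : (x : ℝ) ^ (3 / 4 + ε) = (x : ℝ) ^ (1 / 4 + ε) * √(x : ℝ) := by
      rw [Real.sqrt_eq_rpow, ← Real.rpow_add hx0]
      congr 1
      ring
    have e2 : C * √(x : ℝ) ≤ 1 / 2 * (x : ℝ) ^ (3 / 4 + ε) := by
      rw [e1]
      have := mul_le_mul_of_nonneg_right h3 (Real.sqrt_nonneg (x : ℝ))
      linarith
    have e3 : (x : ℝ) ^ (3 / 4 + ε) ≤ P := by
      rw [hP]
      exact le_mul_of_one_le_right (by positivity) hs1
    linarith
  rw [← hP]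
  calc |kob (A ω) E t x - pred Q E t x| ≤ |kob (A ω) E t x - mn Q E t x| + |mn Q E t x - pred Q E t x| := abs_sub_le _ _ _
    _ ≤ 1 / 2 * P + 1 / 2 * P := add_le_add hmain (h4.trans h5)
    _ = P := by ring

/-- **The uniform law.** -/
theorem unif (hA : IsModel μ (level Q) A) :
    ∀ᵐ ω ∂μ, ∀ ε : ℝ, 0 < ε → ∀ᶠ x : ℕ in atTop, ∀ E : WeierstrassCurve ℤ, Real.log (ht E) ≤ (x : ℝ) ^ (1 / 2 - 2 * ε) →
      ∀ t, 1 ≤ t → |kob (A ω) E t x - pred Q E t x| ≤ (x : ℝ) ^ (3 / 4 + ε) * √(Real.log (ht E)) := by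
  have h : ∀ᵐ ω ∂μ, ∀ k : ℕ, ∀ᶠ x : ℕ in atTop, ∀ E : WeierstrassCurve ℤ,
      Real.log (ht E) ≤ (x : ℝ) ^ (1 / 2 - 2 * (1 / ((k : ℝ) + 1))) → ∀ t, 1 ≤ t →
      |kob (A ω) E t x - pred Q E t x| ≤ (x : ℝ) ^ (3 / 4 + 1 / ((k : ℝ) + 1)) * √(Real.log (ht E)) :=
    ae_all_iff.2 (fun k => unif_one hA (by positivity))
  filter_upwards [h] with ω hω ε hε
  obtain ⟨k, hk⟩ := exists_nat_one_div_lt hε
  filter_upwards [hω k, eventually_ge_atTop 1] with x h1 h2 E hE t ht1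
  have hxr : (1 : ℝ) ≤ x := by exact_mod_cast h2
  refine (h1 E (hE.trans (Real.rpow_le_rpow_of_exponent_le hxr (by linarith))) t ht1).trans ?_
  exact mul_le_mul_of_nonneg_right (Real.rpow_le_rpow_of_exponent_le hxr (by linarith)) (Real.sqrt_nonneg _)

end

end Pool.Agent.Q106.KB
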