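import Pool.Agent.Q106.KB.AS
import Pool.Agent.Helper923.PNT

/-!
# The asymptotic law for a fixed curve
-/

set_option autoImplicit false

namespace Pool.Agent.Q106.KB

open Finset MeasureTheory ProbabilityTheory Filter Pool.Agent.Q120.GM
open scoped Topology

theorem qpos {Q : ℕ} (hQ : 1 ≤ Q) : 0 < (Q : ℝ) / Nat.totient Q := by
  have h1 : 0 < Nat.totient Q := Nat.totient_pos.2 hQ
  have h2 : (0 : ℝ) < Nat.totient Q := by exact_mod_cast h1
  have h3 : (0 : ℝ) < Q := by exact_mod_cast hQ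
  positivity

/-- The number of the primes `p ≤ x` of good reduction for which `N_p / t` is an integer coprime to `Q`. -/
noncomputable def cnt (Q : ℕ) (E : WeierstrassCurve ℤ) (t x : ℕ) : ℝ :=
  ({p : ℕ | p ≤ x ∧ Good E p ∧ t ∣ pts E p ∧ (pts E p / t).Coprime Q}.ncard : ℝ)

/-- The primes counted by `cnt`. -/
noncomputable def PQ (Q : ℕ) (E : WeierstrassCurve ℤ) (t x : ℕ) : Finset ℕ :=
  (PP E t x).filter (fun p => (pts E p / t).Coprime Q)

theorem cnt_eq (Q : ℕ) (E : WeierstrassCurve ℤ) (t x : ℕ) : cnt Q E t x = (PQ Q E t x).card := by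
  unfold cnt
  have h1 : {p : ℕ | p ≤ x ∧ Good E p ∧ t ∣ pts E p ∧ (pts E p / t).Coprime Q} = ((PQ Q E t x : Finset ℕ) : Set ℕ) := by
    ext p
    unfold PQ
    rw [coe_filter]
    constructor
    · rintro ⟨h1, h2, h3, h4⟩
      exact ⟨mem_PP.2 ⟨h1, h2, h3⟩, h4⟩
    · rintro ⟨h1, h4⟩
      obtain ⟨h1, h2, h3⟩ := mem_PP.1 h1
      exact ⟨h1, h2, h3, h4⟩
  rw [h1, Set.ncard_coe_finset]

theorem pred_eq (Q : ℕ) (E : WeierstrassCurve ℤ) (t x : ℕ) : pred Q E t x =
    (Q : ℝ) / Nat.totient Q * ∑ p ∈ PQ Q E t x, (Real.log ((pts E p / t : ℕ) : ℝ))⁻¹ := by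
  unfold pred PQ
  rw [sum_filter]

theorem pts_ge {E : WeierstrassCurve ℤ} {p : ℕ} (h : Good E p) (hp : 36 ≤ p) : (p : ℝ) / 2 ≤ pts E p := by
  have h1 := (abs_le.1 (hasse h)).2
  have hp0 : (36 : ℝ) ≤ p := by exact_mod_cast hp
  have h2 : √(p : ℝ) ≤ p / 6 := by
    rw [Real.sqrt_le_left (by positivity)]
    nlinarith
  linarith

theorem ratio_small {a b L η : ℝ} (hL : 0 < L) (hη1 : η ≤ 1) (h1 : |L - b| ≤ η / 2 * L) (ha : a = b) :
    |L * a⁻¹ - 1| ≤ η := by
  subst ha
  have h2 := abs_le.1 h1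
  have ha : 1 / 2 * L ≤ a := by nlinarith
  have ha0 : 0 < a := by nlinarith
  have e : L * a⁻¹ - 1 = (L - a) / a := by field_simp
  rw [e, abs_div, abs_of_pos ha0, div_le_iff₀ ha0]
  have hη0 : 0 ≤ η := by
    by_contra hcon
    push Not at hcon
    have := abs_nonneg (L - a)
    nlinarith
  nlinarith

/-- The bound for one prime. -/
theorem term_bound {η : ℝ} (hη : 0 < η) (hη1 : η ≤ 1) {t : ℕ} (ht : 1 ≤ t) : ∀ᶠ x : ℕ in atTop,
    ∀ E : WeierstrassCurve ℤ, ∀ p ∈ PP E t x, |Real.log x * (Real.log ((pts E p / t : ℕ) : ℝ))⁻¹ - 1| ≤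
      (if (p : ℝ) ≤ √(x : ℝ) then 2 * Real.log x + 1 else 0) + (if (p : ℝ) ≤ x / Real.log x ^ 2 then 4 else 0) + η := by
  have hl : Tendsto (fun x : ℕ => Real.log (x : ℝ)) atTop atTop := Real.tendsto_log_atTop.comp tendsto_natCast_atTop_atTop
  have hll : ∀ᶠ x : ℕ in atTop, 2 * Real.log (Real.log x) + Real.log (2 * t) ≤ η / 2 * Real.log x := by
    have h1 : ∀ᶠ L : ℝ in atTop, 2 * Real.log L + Real.log (2 * t) ≤ η / 2 * L := by
      have h2 := (Real.isLittleO_log_id_atTop.bound (show (0 : ℝ) < η / 8 by positivity))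
      filter_upwards [h2, eventually_ge_atTop (Real.log (2 * t) / (η / 4)), eventually_ge_atTop 1] with L h3 h4 h5
      rw [Real.norm_eq_abs, id, Real.norm_of_nonneg (by linarith)] at h3
      have h6 := (abs_le.1 h3).2
      rw [div_le_iff₀ (by positivity)] at h4
      linarith
    exact hl.eventually h1
  filter_upwards [hll, hl.eventually_ge_atTop (4 * Real.log (2 * t)), hl.eventually_ge_atTop (Real.log 10 / (η / 2)),
    hl.eventually_ge_atTop 2, eventually_ge_atTop (36 ^ 2)] with x h1 h2 h3 h4 h5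
  intro E p hp
  obtain ⟨hpx, hg, htp⟩ := mem_PP.1 hp
  have hx0 : (0 : ℝ) < x := by exact_mod_cast (show 0 < x by omega)
  have ht0 : (1 : ℝ) ≤ t := by exact_mod_cast ht
  have hL0 : 0 < Real.log (x : ℝ) := by linarith
  obtain ⟨n, hn⟩ : ∃ n, n = pts E p / t := ⟨_, rfl⟩
  rw [← hn]
  have hN : pts E p = t * n := by rw [hn, Nat.mul_div_cancel' htp]
  have hn1 : 1 ≤ n := by
    have := pts_pos E p
    rcases Nat.eq_zero_or_pos n with h | h
    · rw [h, mul_zero] at hN
      omega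
    · exact h
  have i1 : (0 : ℝ) ≤ if (p : ℝ) ≤ √(x : ℝ) then 2 * Real.log x + 1 else 0 := by
    split_ifs
    · linarith
    · exact le_rfl
  have i2 : (0 : ℝ) ≤ if (p : ℝ) ≤ x / Real.log x ^ 2 then 4 else 0 := by
    split_ifs
    · norm_num
    · exact le_rfl
  by_cases hA : (p : ℝ) ≤ √(x : ℝ)
  · rw [if_pos hA]
    have h6 : |Real.log x * (Real.log (n : ℝ))⁻¹ - 1| ≤ 2 * Real.log x + 1 := by
      rcases Nat.lt_or_ge n 2 with h | h
      · have : n = 1 := by omega
        rw [this]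
        simp only [Nat.cast_one, Real.log_one, inv_zero, mul_zero, zero_sub, abs_neg, abs_one]
        linarith
      · have h7 : Real.log 2 ≤ Real.log (n : ℝ) := Real.log_le_log (by norm_num) (by exact_mod_cast h)
        have h8 : (1 / 2 : ℝ) ≤ Real.log 2 := by
          have := Real.log_two_gt_d9
          linarith
        have h9 : (Real.log (n : ℝ))⁻¹ ≤ 2 := by
          rw [inv_le_comm₀ (by linarith) (by norm_num)]
          linarith
        have h10 : 0 ≤ (Real.log (n : ℝ))⁻¹ := inv_nonneg.2 (by linarith)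
        rw [abs_le]
        constructor
        · nlinarith
        · nlinarith
    linarith
  · push Not at hA
    have h36 : (36 : ℝ) ≤ √(x : ℝ) := by
      rw [Real.le_sqrt (by norm_num) hx0.le]
      exact_mod_cast h5
    have hp36 : 36 ≤ p := by
      have : (36 : ℝ) ≤ p := by linarith
      exact_mod_cast this
    have hp0 : (0 : ℝ) < p := by linarith
    have g1 : (p : ℝ) / 2 ≤ t * n := by
      have := pts_ge hg hp36
      rw [hN] at this
      push_cast at this
      exact this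
    have g2 : (p : ℝ) / (2 * t) ≤ n := by
      rw [div_le_iff₀ (by positivity)]
      linarith
    have hn0 : (0 : ℝ) < n := by exact_mod_cast hn1
    have g3 : Real.log p - Real.log (2 * t) ≤ Real.log n := by
      rw [← Real.log_div hp0.ne' (by positivity)]
      exact Real.log_le_log (by positivity) g2
    have g4 : Real.log n ≤ Real.log 10 + Real.log x := by
      rw [← Real.log_mul (by norm_num) hx0.ne']
      refine Real.log_le_log hn0 ?_
      have := pts_le hg hpx
      have h6 : n ≤ pts E p := by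
        rw [hn]
        exact Nat.div_le_self _ _
      have h7 : n ≤ 10 * x := h6.trans this
      exact_mod_cast h7
    by_cases hB : (p : ℝ) ≤ x / Real.log x ^ 2
    · rw [if_pos hB]
      have h6 : 1 / 2 * Real.log x ≤ Real.log p := by
        have h7 : Real.log (√(x : ℝ)) ≤ Real.log p := Real.log_le_log (by linarith) hA.le
        rw [Real.log_sqrt hx0.le] at h7
        linarith
      have h7 : 1 / 4 * Real.log x ≤ Real.log n := by linarith
      have h8 : 0 < Real.log n := by linarith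
      have h9 : Real.log x * (Real.log (n : ℝ))⁻¹ ≤ 4 := by
        rw [← div_eq_mul_inv, div_le_iff₀ h8]
        linarith
      have h10 : 0 ≤ Real.log x * (Real.log (n : ℝ))⁻¹ := by positivity
      have h11 : |Real.log x * (Real.log (n : ℝ))⁻¹ - 1| ≤ 4 := by
        rw [abs_le]
        constructor <;> linarith
      linarith
    · push Not at hB
      rw [if_neg (by linarith)]
      have h6 : Real.log x - 2 * Real.log (Real.log x) ≤ Real.log p := by
        have h7 : Real.log (x / Real.log x ^ 2) ≤ Real.log p := Real.log_le_log (by positivity) hB.le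
        rw [Real.log_div hx0.ne' (by positivity), Real.log_pow] at h7
        push_cast at h7
        exact h7
      have h8 : |Real.log x - Real.log n| ≤ η / 2 * Real.log x := by
        rw [div_le_iff₀ (by positivity)] at h3
        rw [abs_le]
        constructor <;> linarith
      have h9 := ratio_small hL0 hη1 h8 rfl
      linarith

theorem card_small (P : Finset ℕ) {y : ℝ} (hy : 0 ≤ y) : ((P.filter (fun p : ℕ => (p : ℝ) ≤ y)).card : ℝ) ≤ y + 1 := by
  have h1 : P.filter (fun p : ℕ => (p : ℝ) ≤ y) ⊆ range (⌊y⌋₊ + 1) := by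
    intro p hp
    rw [mem_filter] at hp
    rw [mem_range]
    have := Nat.le_floor hp.2
    omega
  have h2 := card_le_card h1
  rw [card_range] at h2
  have h3 : ((P.filter (fun p : ℕ => (p : ℝ) ≤ y)).card : ℝ) ≤ ⌊y⌋₊ + 1 := by exact_mod_cast h2
  have h4 := Nat.floor_le hy
  linarith

theorem card_PQ (Q : ℕ) (E : WeierstrassCurve ℤ) (t x : ℕ) : (PQ Q E t x).card ≤ Nat.primeCounting x := by
  rw [Nat.primeCounting, Nat.primeCounting', Nat.count_eq_card_filter_range]
  refine card_le_card ?_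
  intro p hp
  unfold PQ at hp
  rw [mem_filter, mem_PP] at hp
  rw [mem_filter, mem_range]
  exact ⟨by omega, hp.1.2.1.1⟩

theorem pi_lim : Tendsto (fun x : ℕ => (Nat.primeCounting x : ℝ) * Real.log x / x) atTop (𝓝 1) := by
  have := Pool.Agent.Helper923.PNT.pi_tendsto.comp tendsto_natCast_atTop_atTop
  refine this.congr (fun x => ?_)
  simp

/-- The predicted number for a fixed curve. -/
theorem pred_lim {Q : ℕ} (hQ : 1 ≤ Q) (E : WeierstrassCurve ℤ) {t : ℕ} (ht : 1 ≤ t) :
    Tendsto (fun x : ℕ => pred Q E t x * Real.log x ^ 2 / x - (Q : ℝ) / Nat.totient Q * cnt Q E t x * Real.log x / x)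
      atTop (𝓝 0) := by
  have hq : 0 < (Q : ℝ) / Nat.totient Q := qpos hQ
  obtain ⟨q, hqq⟩ : ∃ q, q = (Q : ℝ) / Nat.totient Q := ⟨_, rfl⟩
  rw [← hqq] at hq
  have hl : Tendsto (fun x : ℕ => Real.log (x : ℝ)) atTop atTop := Real.tendsto_log_atTop.comp tendsto_natCast_atTop_atTop
  have k1 : Tendsto (fun x : ℕ => 6 * (Real.log (x : ℝ) ^ 2 / √(x : ℝ))) atTop (𝓝 0) := by
    have h1 : Tendsto (fun x : ℝ => Real.log x ^ 2 / √x) atTop (𝓝 0) := by
      have h2 := (isLittleO_log_rpow_rpow_atTop (s := 1 / 2) 2 (by norm_num)).tendsto_div_nhds_zero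
      refine h2.congr (fun x => ?_)
      rw [Real.sqrt_eq_rpow]
      norm_num
    have h3 := (h1.comp tendsto_natCast_atTop_atTop).const_mul (6 : ℝ)
    rw [mul_zero] at h3
    exact h3
  have k2 : Tendsto (fun x : ℕ => 4 / Real.log (x : ℝ)) atTop (𝓝 0) := hl.const_div_atTop 4
  have k3 : Tendsto (fun x : ℕ => 4 * (Real.log (x : ℝ) / x)) atTop (𝓝 0) := by
    have h1 := (Real.isLittleO_log_id_atTop.tendsto_div_nhds_zero.comp tendsto_natCast_atTop_atTop).const_mul (4 : ℝ)
    rw [mul_zero] at h1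
    exact h1
  have k4 := (k1.add k2).add k3
  simp only [add_zero] at k4
  rw [Metric.tendsto_nhds]
  intro θ hθ
  obtain ⟨η, hη⟩ : ∃ η, η = min 1 (θ / (8 * q)) := ⟨_, rfl⟩
  have hη0 : 0 < η := by rw [hη]; positivity
  have hη1 : η ≤ 1 := by rw [hη]; exact min_le_left _ _
  have hη2 : η * q ≤ θ / 8 := by
    have : η ≤ θ / (8 * q) := by rw [hη]; exact min_le_right _ _
    calc η * q ≤ θ / (8 * q) * q := mul_le_mul_of_nonneg_right this hq.le
      _ = θ / 8 := by field_simp
  filter_upwards [term_bound hη0 hη1 ht, pi_lim.eventually_le_const (show (1 : ℝ) < 2 by norm_num),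
    k4.eventually_le_const (show (0 : ℝ) < θ / (4 * q) by positivity), hl.eventually_ge_atTop 1,
    eventually_ge_atTop 1] with x h1 h2 h3 h4 h5
  have hx1 : (1 : ℝ) ≤ x := by exact_mod_cast h5
  have hx0 : (0 : ℝ) < x := by linarith
  have hL0 : 0 < Real.log (x : ℝ) := by linarith
  rw [Real.dist_eq, sub_zero, pred_eq, cnt_eq, ← hqq]
  have e1 : q * (∑ p ∈ PQ Q E t x, (Real.log ((pts E p / t : ℕ) : ℝ))⁻¹) * Real.log x ^ 2 / x -
      q * (PQ Q E t x).card * Real.log x / x =
      q * (Real.log x / x) * ∑ p ∈ PQ Q E t x, (Real.log x * (Real.log ((pts E p / t : ℕ) : ℝ))⁻¹ - 1) := by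
    rw [sum_sub_distrib, ← mul_sum, sum_const, nsmul_eq_mul, mul_one]
    field_simp
  rw [e1, abs_mul, abs_of_nonneg (by positivity)]
  have hsub : PQ Q E t x ⊆ PP E t x := filter_subset _ _
  have e2 : |∑ p ∈ PQ Q E t x, (Real.log x * (Real.log ((pts E p / t : ℕ) : ℝ))⁻¹ - 1)| ≤
      (√(x : ℝ) + 1) * (2 * Real.log x + 1) + (x / Real.log x ^ 2 + 1) * 4 + Nat.primeCounting x * η := by
    refine (abs_sum_le_sum_abs _ _).trans ((sum_le_sum (fun p hp => h1 E p (hsub hp))).trans ?_)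
    rw [sum_add_distrib, sum_add_distrib]
    refine add_le_add (add_le_add ?_ ?_) ?_
    · rw [← sum_filter, sum_const, nsmul_eq_mul]
      exact mul_le_mul_of_nonneg_right (card_small _ (Real.sqrt_nonneg _)) (by linarith)
    · rw [← sum_filter, sum_const, nsmul_eq_mul]
      exact mul_le_mul_of_nonneg_right (card_small _ (by positivity)) (by norm_num)
    · rw [sum_const, nsmul_eq_mul]
      refine mul_le_mul_of_nonneg_right ?_ hη0.le
      exact_mod_cast card_PQ Q E t x
  have hs1 : 1 ≤ √(x : ℝ) := by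
    rw [Real.one_le_sqrt]
    exact hx1
  have hss : √(x : ℝ) * √(x : ℝ) = x := Real.mul_self_sqrt hx0.le
  have e3 : Real.log x / x * ((√(x : ℝ) + 1) * (2 * Real.log x + 1)) ≤ 6 * (Real.log (x : ℝ) ^ 2 / √(x : ℝ)) := by
    have i1 : (√(x : ℝ) + 1) * (2 * Real.log x + 1) ≤ (2 * √(x : ℝ)) * (3 * Real.log x) :=
      mul_le_mul (by linarith) (by linarith) (by linarith) (by linarith)
    calc Real.log x / x * ((√(x : ℝ) + 1) * (2 * Real.log x + 1)) ≤ Real.log x / x * ((2 * √(x : ℝ)) * (3 * Real.log x)) :=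
          mul_le_mul_of_nonneg_left i1 (by positivity)
      _ = 6 * (Real.log (x : ℝ) ^ 2 / √(x : ℝ)) := by
          have h6 : (0 : ℝ) < √(x : ℝ) := by linarith
          rw [div_mul_eq_mul_div, div_eq_iff hx0.ne']
          rw [mul_div_assoc', div_mul_eq_mul_div, eq_div_iff h6.ne']
          calc Real.log x * (2 * √(x : ℝ) * (3 * Real.log x)) * √(x : ℝ) =
              6 * Real.log x ^ 2 * (√(x : ℝ) * √(x : ℝ)) := by ring
            _ = _ := by rw [hss]
  have e4 : Real.log x / x * ((x / Real.log x ^ 2 + 1) * 4) = 4 / Real.log (x : ℝ) + 4 * (Real.log (x : ℝ) / x) := by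
    field_simp
  have e5 : Real.log x / x * (Nat.primeCounting x * η) ≤ 2 * η := by
    calc Real.log x / x * (Nat.primeCounting x * η) = (Nat.primeCounting x : ℝ) * Real.log x / x * η := by ring
      _ ≤ 2 * η := mul_le_mul_of_nonneg_right h2 hη0.le
  have e6 : Real.log x / x * |∑ p ∈ PQ Q E t x, (Real.log x * (Real.log ((pts E p / t : ℕ) : ℝ))⁻¹ - 1)| ≤
      θ / (4 * q) + 2 * η := by
    have h6 := mul_le_mul_of_nonneg_left e2 (show 0 ≤ Real.log x / x by positivity)
    rw [mul_add, mul_add] at h6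
    linarith
  calc q * (Real.log x / x) * |∑ p ∈ PQ Q E t x, (Real.log x * (Real.log ((pts E p / t : ℕ) : ℝ))⁻¹ - 1)| =
        q * (Real.log x / x * |∑ p ∈ PQ Q E t x, (Real.log x * (Real.log ((pts E p / t : ℕ) : ℝ))⁻¹ - 1)|) := by ring
    _ ≤ q * (θ / (4 * q) + 2 * η) := mul_le_mul_of_nonneg_left e6 hq.le
    _ = θ / 4 + 2 * (η * q) := by field_simp
    _ < θ := by linarith

/-- **The asymptotic law**, from the uniform law. -/
theorem asym {A : Set ℕ} {Q : ℕ} (hQ : 1 ≤ Q) (hA : ∀ ε : ℝ, 0 < ε → ∀ᶠ x : ℕ in atTop, ∀ E : WeierstrassCurve ℤ,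
      Real.log (ht E) ≤ (x : ℝ) ^ (1 / 2 - 2 * ε) →
      ∀ t, 1 ≤ t → |kob A E t x - pred Q E t x| ≤ (x : ℝ) ^ (3 / 4 + ε) * √(Real.log (ht E)))
    (E : WeierstrassCurve ℤ) {t : ℕ} (ht1 : 1 ≤ t) :
    Tendsto (fun x : ℕ => kob A E t x / (x / Real.log x ^ 2) -
      (Q : ℝ) / Nat.totient Q * (cnt Q E t x / Nat.primeCounting x)) atTop (𝓝 0) := by
  have hq : 0 < (Q : ℝ) / Nat.totient Q := qpos hQ
  obtain ⟨q, hqq⟩ : ∃ q, q = (Q : ℝ) / Nat.totient Q := ⟨_, rfl⟩
  have hl : Tendsto (fun x : ℕ => Real.log (x : ℝ)) atTop atTop := Real.tendsto_log_atTop.comp tendsto_natCast_atTop_atTop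
  have t1 : Tendsto (fun x : ℕ => (kob A E t x - pred Q E t x) * Real.log x ^ 2 / x) atTop (𝓝 0) := by
    have h1 : Tendsto (fun x : ℝ => Real.log x ^ 2 / x ^ (3 / 16 : ℝ) * √(Real.log (ht E))) atTop (𝓝 0) := by
      have h2 := (isLittleO_log_rpow_rpow_atTop (s := 3 / 16) 2 (by norm_num)).tendsto_div_nhds_zero
      have h3 : Tendsto (fun x : ℝ => Real.log x ^ 2 / x ^ (3 / 16 : ℝ)) atTop (𝓝 0) := by
        refine h2.congr (fun x => ?_)
        norm_num
      have h4 := h3.mul_const (√(Real.log (ht E)))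
      rw [zero_mul] at h4
      exact h4
    have h2 : ∀ᶠ x : ℕ in atTop, Real.log (ht E) ≤ (x : ℝ) ^ (1 / 2 - 2 * (1 / 16) : ℝ) := by
      have h3 : Tendsto (fun x : ℕ => (x : ℝ) ^ (1 / 2 - 2 * (1 / 16) : ℝ)) atTop atTop :=
        (tendsto_rpow_atTop (by norm_num)).comp tendsto_natCast_atTop_atTop
      exact h3.eventually_ge_atTop _
    refine squeeze_zero_norm' ?_ (h1.comp tendsto_natCast_atTop_atTop)
    filter_upwards [hA (1 / 16) (by norm_num), h2, eventually_ge_atTop 1] with x h3 h4 h5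
    have hx0 : (0 : ℝ) < x := by exact_mod_cast h5
    have h6 := h3 E h4 t ht1
    rw [Real.norm_eq_abs, abs_div, abs_mul, abs_of_nonneg (sq_nonneg (Real.log (x : ℝ))), abs_of_pos hx0]
    simp only [Function.comp_apply]
    have e1 : (x : ℝ) ^ (3 / 4 + 1 / 16 : ℝ) * (x : ℝ) ^ (3 / 16 : ℝ) = x := by
      rw [← Real.rpow_add hx0]
      norm_num
    rw [div_mul_eq_mul_div, div_le_div_iff₀ hx0 (by positivity)]
    calc |kob A E t x - pred Q E t x| * Real.log x ^ 2 * (x : ℝ) ^ (3 / 16 : ℝ) ≤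
        (x : ℝ) ^ (3 / 4 + 1 / 16 : ℝ) * √(Real.log (ht E)) * Real.log x ^ 2 * (x : ℝ) ^ (3 / 16 : ℝ) := by gcongr
      _ = Real.log x ^ 2 * √(Real.log (ht E)) * ((x : ℝ) ^ (3 / 4 + 1 / 16 : ℝ) * (x : ℝ) ^ (3 / 16 : ℝ)) := by ring
      _ = _ := by rw [e1]
  have t2 := pred_lim hQ E ht1
  have t3 : Tendsto (fun x : ℕ => q * (cnt Q E t x / Nat.primeCounting x) * ((Nat.primeCounting x : ℝ) * Real.log x / x - 1))
      atTop (𝓝 0) := by
    have h1 : Tendsto (fun x : ℕ => q * |(Nat.primeCounting x : ℝ) * Real.log x / x - 1|) atTop (𝓝 0) := by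
      have h2 := (pi_lim.sub_const 1).abs.const_mul q
      rw [sub_self, abs_zero, mul_zero] at h2
      exact h2
    refine squeeze_zero_norm' (Eventually.of_forall (fun x => ?_)) h1
    rw [Real.norm_eq_abs, abs_mul, abs_mul, abs_of_pos (by rw [hqq]; exact hq)]
    refine mul_le_mul_of_nonneg_right ?_ (abs_nonneg _)
    refine mul_le_of_le_one_right (by rw [hqq]; exact hq.le) ?_
    rw [cnt_eq, abs_of_nonneg (by positivity)]
    refine div_le_one_of_le₀ ?_ (Nat.cast_nonneg _)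
    exact_mod_cast card_PQ Q E t x
  have h := (t1.add t2).add t3
  simp only [add_zero] at h
  refine h.congr' ?_
  filter_upwards [eventually_ge_atTop 3] with x hx
  have hx0 : (0 : ℝ) < x := by exact_mod_cast (show 0 < x by omega)
  have hL0 : 0 < Real.log (x : ℝ) := Real.log_pos (by exact_mod_cast (show 1 < x by omega))
  have hpi : (0 : ℝ) < Nat.primeCounting x := by
    have h1 : 0 < Nat.primeCounting x := by
      have h2 : Nat.primeCounting 2 ≤ Nat.primeCounting x := Nat.monotone_primeCounting (by omega)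
      have h3 : Nat.primeCounting 2 = 1 := by decide
      omega
    exact_mod_cast h1
  rw [← hqq]
  field_simp
  ring

end Pool.Agent.Q106.KB
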