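import Pool.Agent.Q120.GM.Basic

/-!
# Bernstein's inequality for weighted sums in the models
-/

set_option autoImplicit false

namespace Pool.Agent.Q106.KB

open Finset MeasureTheory ProbabilityTheory Pool.Agent.Q120.GM

variable {Ω : Type*} [MeasurableSpace Ω] {μ : Measure Ω} [IsProbabilityMeasure μ] {ι : Type*} {p : ι → ℝ}
  {A : Ω → Set ι}

/-- The indicator function of `i ∈ A`. -/
noncomputable def ind (A : Ω → Set ι) (i : ι) : Ω → ℝ := Set.indicator {ω | i ∈ A ω} (fun _ => (1 : ℝ))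

theorem meas_ind (hA : IsModel μ p A) (i : ι) : Measurable (ind A i) :=
  measurable_const.indicator (hA.meas i)

theorem exp_quad {u : ℝ} (h : |u| ≤ 1) : Real.exp u ≤ 1 + u + u ^ 2 := by
  have := Real.abs_exp_sub_one_sub_id_le h
  have := (abs_le.1 this).2
  linarith

theorem mgf_ind (hA : IsModel μ p A) (i : ι) {w : ℝ} (hw : |w| ≤ 1) :
    ∫ ω, Real.exp (w * (ind A i ω - p i)) ∂μ ≤ Real.exp (p i * w ^ 2) := by
  have h1 : (fun ω => Real.exp (w * (ind A i ω - p i))) =
      fun ω => Real.exp (-(w * p i)) + (Real.exp w - 1) * Real.exp (-(w * p i)) * ind A i ω := by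
    funext ω
    by_cases h : i ∈ A ω
    · have : ind A i ω = 1 := Set.indicator_of_mem (s := {ω | i ∈ A ω}) h _
      rw [this, show w * (1 - p i) = w + -(w * p i) by ring, Real.exp_add]
      ring
    · have : ind A i ω = 0 := Set.indicator_of_notMem (s := {ω | i ∈ A ω}) h _
      rw [this, show w * (0 - p i) = -(w * p i) by ring]
      ring
  have hint : Integrable (ind A i) μ := (integrable_const (1 : ℝ)).indicator (hA.meas i)
  rw [h1, integral_add (integrable_const _) (hint.const_mul _), integral_const, integral_const_mul]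
  have h2 : ∫ ω, ind A i ω ∂μ = p i := by
    unfold ind
    rw [integral_indicator_const _ (hA.meas i), smul_eq_mul, mul_one]
    exact hA.prob i
  rw [h2]
  simp only [probReal_univ, smul_eq_mul, one_mul]
  have h3 : Real.exp (-(w * p i)) + (Real.exp w - 1) * Real.exp (-(w * p i)) * p i =
      Real.exp (-(w * p i)) * (1 + p i * (Real.exp w - 1)) := by ring
  rw [h3]
  have h4 : 1 + p i * (Real.exp w - 1) ≤ Real.exp (p i * (w + w ^ 2)) := by
    have h5 := exp_quad hw
    have h6 := p_nonneg hA i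
    have h7 : p i * (Real.exp w - 1) ≤ p i * (w + w ^ 2) := mul_le_mul_of_nonneg_left (by linarith) h6
    have h8 := Real.add_one_le_exp (p i * (w + w ^ 2))
    linarith
  calc Real.exp (-(w * p i)) * (1 + p i * (Real.exp w - 1)) ≤ Real.exp (-(w * p i)) * Real.exp (p i * (w + w ^ 2)) :=
        mul_le_mul_of_nonneg_left h4 (Real.exp_pos _).le
    _ = Real.exp (p i * w ^ 2) := by
        rw [← Real.exp_add]
        congr 1
        ring

theorem indep_ind (hA : IsModel μ p A) (w : ι → ℝ) :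
    iIndepFun (fun i => fun ω => w i * (ind A i ω - p i)) μ := by
  have h1 : iIndepFun (fun i => ind A i) μ := hA.indep.iIndepFun_indicator
  have h2 := h1.comp (fun i x => w i * (x - p i)) (fun i => by fun_prop)
  exact h2

/-- One side. -/
theorem bern_one (hA : IsModel μ p A) (T : Finset ι) (w : ι → ℝ) {s : ℝ} (hs : 0 ≤ s) (hw : ∀ i ∈ T, |s * w i| ≤ 1) {V : ℝ}
    (hV : ∑ i ∈ T, p i * w i ^ 2 ≤ V) (lam : ℝ) :
    μ.real {ω | lam ≤ ∑ i ∈ T, w i * (ind A i ω - p i)} ≤ Real.exp (s ^ 2 * V - s * lam) := by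
  have hX : ∀ i, Measurable (fun ω => w i * (ind A i ω - p i)) := fun i => ((meas_ind hA i).sub_const _).const_mul _
  have hbd : ∀ i ω, |ind A i ω| ≤ 1 := by
    intro i ω
    unfold ind
    by_cases h : ω ∈ {ω | i ∈ A ω}
    · rw [Set.indicator_of_mem h]
      norm_num
    · rw [Set.indicator_of_notMem h]
      norm_num
  have hsum : (fun ω => ∑ i ∈ T, w i * (ind A i ω - p i)) = ∑ i ∈ T, fun ω => w i * (ind A i ω - p i) := by
    funext ω
    simp
  have h1 : mgf (∑ i ∈ T, fun ω => w i * (ind A i ω - p i)) μ s = ∏ i ∈ T, mgf (fun ω => w i * (ind A i ω - p i)) μ s :=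
    (indep_ind hA w).mgf_sum (fun i => hX i) T
  have h2 : ∀ i ∈ T, mgf (fun ω => w i * (ind A i ω - p i)) μ s ≤ Real.exp (s ^ 2 * (p i * w i ^ 2)) := by
    intro i hi
    unfold mgf
    have h3 := mgf_ind hA i (hw i hi)
    refine le_trans (le_of_eq ?_) (h3.trans (le_of_eq ?_))
    · congr 1
      funext ω
      congr 1
      ring
    · congr 1
      ring
  have hcalc : mgf (∑ i ∈ T, fun ω => w i * (ind A i ω - p i)) μ s ≤ Real.exp (s ^ 2 * V) := by
    rw [h1]
    calc ∏ i ∈ T, mgf (fun ω => w i * (ind A i ω - p i)) μ s ≤ ∏ i ∈ T, Real.exp (s ^ 2 * (p i * w i ^ 2)) :=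
          prod_le_prod (fun i _ => mgf_nonneg) h2
      _ = Real.exp (s ^ 2 * ∑ i ∈ T, p i * w i ^ 2) := by
          rw [← Real.exp_sum, mul_sum]
      _ ≤ Real.exp (s ^ 2 * V) := by
          rw [Real.exp_le_exp]
          exact mul_le_mul_of_nonneg_left hV (sq_nonneg s)
  have hint : Integrable (fun ω => Real.exp (s * (∑ i ∈ T, fun ω => w i * (ind A i ω - p i)) ω)) μ := by
    rw [← hsum]
    refine Integrable.of_bound (C := Real.exp (s * ∑ i ∈ T, |w i| * (1 + |p i|))) ?_ ?_
    · refine Measurable.aestronglyMeasurable ?_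
      exact (((Finset.measurable_fun_sum T (fun i _ => hX i)).const_mul s)).exp
    · refine Filter.Eventually.of_forall (fun ω => ?_)
      rw [Real.norm_eq_abs, abs_of_pos (Real.exp_pos _), Real.exp_le_exp]
      refine mul_le_mul_of_nonneg_left (sum_le_sum (fun i _ => ?_)) hs
      calc w i * (ind A i ω - p i) ≤ |w i * (ind A i ω - p i)| := le_abs_self _
        _ = |w i| * |ind A i ω - p i| := abs_mul _ _
        _ ≤ |w i| * (1 + |p i|) := by
            refine mul_le_mul_of_nonneg_left ?_ (abs_nonneg _)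
            exact (abs_sub _ _).trans (add_le_add (hbd i ω) le_rfl)
  have h3 := measure_ge_le_exp_mul_mgf lam hs hint
  have h4 : {ω | lam ≤ ∑ i ∈ T, w i * (ind A i ω - p i)} = {ω | lam ≤ (∑ i ∈ T, fun ω => w i * (ind A i ω - p i)) ω} := by
    ext ω
    simp
  rw [h4]
  refine h3.trans ?_
  calc Real.exp (-s * lam) * mgf (∑ i ∈ T, fun ω => w i * (ind A i ω - p i)) μ s ≤ Real.exp (-s * lam) * Real.exp (s ^ 2 * V) :=
        mul_le_mul_of_nonneg_left hcalc (Real.exp_pos _).le
    _ = _ := by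
        rw [← Real.exp_add]
        congr 1
        ring

/-- **Bernstein's inequality.** -/
theorem bern (hA : IsModel μ p A) (T : Finset ι) (w : ι → ℝ) {K V lam : ℝ} (hK : ∀ i ∈ T, |w i| ≤ K) (hV0 : 0 < V)
    (hV : ∑ i ∈ T, p i * w i ^ 2 ≤ V) (hl : 0 ≤ lam) (hlK : lam * K ≤ 2 * V) :
    μ.real {ω | lam ≤ |∑ i ∈ T, w i * (ind A i ω - p i)|} ≤ 2 * Real.exp (-(lam ^ 2 / (4 * V))) := by
  have hs : 0 ≤ lam / (2 * V) := by positivity
  have hw : ∀ i ∈ T, |lam / (2 * V) * w i| ≤ 1 := by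
    intro i hi
    rw [abs_mul, abs_of_nonneg hs, div_mul_eq_mul_div, div_le_one (by positivity)]
    exact (mul_le_mul_of_nonneg_left (hK i hi) hl).trans hlK
  have h1 := bern_one hA T w hs hw hV lam
  have hw' : ∀ i ∈ T, |lam / (2 * V) * (-w i)| ≤ 1 := by
    intro i hi
    rw [mul_neg, abs_neg]
    exact hw i hi
  have hV' : ∑ i ∈ T, p i * (-w i) ^ 2 ≤ V := by
    simpa using hV
  have h2 := bern_one hA T (fun i => -w i) hs hw' hV' lam
  have e : (lam / (2 * V)) ^ 2 * V - lam / (2 * V) * lam = -(lam ^ 2 / (4 * V)) := by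
    field_simp
    ring
  rw [e] at h1 h2
  have h3 : {ω | lam ≤ |∑ i ∈ T, w i * (ind A i ω - p i)|} ⊆ {ω | lam ≤ ∑ i ∈ T, w i * (ind A i ω - p i)} ∪
      {ω | lam ≤ ∑ i ∈ T, -w i * (ind A i ω - p i)} := by
    intro ω hω
    rw [Set.mem_setOf_eq] at hω
    rcases le_abs.1 hω with h | h
    · exact Or.inl h
    · right
      rw [Set.mem_setOf_eq]
      refine h.trans (le_of_eq ?_)
      rw [← sum_neg_distrib]
      exact sum_congr rfl (fun i _ => by ring)
  calc μ.real {ω | lam ≤ |∑ i ∈ T, w i * (ind A i ω - p i)|} ≤ _ := measureReal_mono h3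
    _ ≤ _ := measureReal_union_le _ _
    _ ≤ _ := by linarith

end Pool.Agent.Q106.KB
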