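import Pool.Agent.H341R2.NF.ECCount

/-!
# The numbers of points of the reductions of an integral Weierstrass equation
-/

set_option autoImplicit false

namespace Pool.Agent.Q106.KB

open Finset

/-- The number of points (with the point at infinity) of the reduction modulo `p` of the Weierstrass equation `E`. -/
noncomputable def pts (E : WeierstrassCurve ℤ) (p : ℕ) : ℕ :=
  Nat.card {q : ZMod p × ZMod p // (E.map (Int.castRingHom (ZMod p))).toAffine.Equation q.1 q.2} + 1

/-- `p` is a prime of good reduction of the equation `E`: it does not divide the discriminant. -/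
def Good (E : WeierstrassCurve ℤ) (p : ℕ) : Prop := p.Prime ∧ ¬ ((p : ℤ) ∣ E.Δ)

theorem pts_pos (E : WeierstrassCurve ℤ) (p : ℕ) : 1 ≤ pts E p := Nat.le_add_left _ _

theorem pts_eq (E : WeierstrassCurve ℤ) (p : ℕ) [Fact p.Prime] :
    pts E p = Pool.Agent.H341R2.EC.aff (E.map (Int.castRingHom (ZMod p))) + 1 := by
  unfold pts Pool.Agent.H341R2.EC.aff
  congr 1
  refine Nat.card_congr (Equiv.subtypeEquivRight (fun q => ?_))
  rw [WeierstrassCurve.Affine.equation_iff]

/-- **Hasse's bound**, with room for the primes `2` and `3`. -/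
theorem hasse {E : WeierstrassCurve ℤ} {p : ℕ} (h : Good E p) :
    |((p : ℝ) + 1 - pts E p)| ≤ 2 * √(p : ℝ) + 6 := by
  haveI : Fact p.Prime := ⟨h.1⟩
  haveI : NeZero p := ⟨h.1.ne_zero⟩
  have hs : 0 ≤ √(p : ℝ) := Real.sqrt_nonneg _
  by_cases h4 : p < 5
  · have hp2 := h.1.two_le
    have hp3 : p ≤ 3 := by
      have : p ≠ 4 := by
        rintro rfl
        exact absurd h.1 (by norm_num)
      omega
    have h1 : pts E p ≤ p * p + 1 := by
      unfold pts
      have h2 : Nat.card {q : ZMod p × ZMod p // (E.map (Int.castRingHom (ZMod p))).toAffine.Equation q.1 q.2} ≤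
          Nat.card (ZMod p × ZMod p) := Nat.card_le_card_of_injective _ Subtype.val_injective
      rw [Nat.card_prod, Nat.card_zmod] at h2
      omega
    have h2 := pts_pos E p
    have h3 : (pts E p : ℝ) ≤ 10 := by
      have : pts E p ≤ 10 := h1.trans (by nlinarith)
      exact_mod_cast this
    have h5 : (1 : ℝ) ≤ pts E p := by exact_mod_cast h2
    have h6 : (2 : ℝ) ≤ p := by exact_mod_cast hp2
    have h7 : (p : ℝ) ≤ 3 := by exact_mod_cast hp3
    have h8 : (pts E p : ℝ) ≤ p * p + 1 := by exact_mod_cast h1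
    rw [abs_le]
    constructor
    · nlinarith
    · linarith
  · push Not at h4
    have h6 : (6 : ZMod p) ≠ 0 := by
      intro h0
      have h1 : ((6 : ℕ) : ZMod p) = 0 := by exact_mod_cast h0
      rw [ZMod.natCast_eq_zero_iff] at h1
      have h2 : p ∣ 2 * 3 := h1
      rcases h.1.dvd_mul.1 h2 with h3 | h3
      · have := Nat.le_of_dvd (by norm_num) h3
        omega
      · have := Nat.le_of_dvd (by norm_num) h3
        omega
    obtain ⟨V, hV⟩ : ∃ V, V = E.map (Int.castRingHom (ZMod p)) := ⟨_, rfl⟩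
    have hΔ : V.Δ ≠ 0 := by
      rw [hV, WeierstrassCurve.map_Δ]
      intro h0
      apply h.2
      have h1 : ((E.Δ : ℤ) : ZMod p) = 0 := by simpa using h0
      rwa [ZMod.intCast_zmod_eq_zero_iff_dvd] at h1
    have h1 : (Pool.Agent.H341R2.EC.aff V : ℤ) = Fintype.card (ZMod p) + Pool.Agent.H341R2.EC.csum V.c₄ V.c₆ := by
      rw [Pool.Agent.H341R2.EC.aff_eq_short h6, Pool.Agent.H341R2.EC.short_eq h6]
      rfl
    have h2 : V.c₄ ^ 3 - V.c₆ ^ 2 ≠ 0 := by
      rw [← WeierstrassCurve.c_relation]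
      refine mul_ne_zero ?_ hΔ
      have : (1728 : ZMod p) = 6 ^ 3 * 8 := by norm_num
      have h8 : (8 : ZMod p) ≠ 0 := by
        intro h
        apply h6
        have h2 : (2 : ZMod p) = 0 := by
          have : (2 : ZMod p) ^ 3 = 0 := by rw [← h]; norm_num
          exact pow_eq_zero_iff (by norm_num) |>.1 this
        have : (6 : ZMod p) = 2 * 3 := by norm_num
        rw [this, h2, zero_mul]
      rw [this]
      exact mul_ne_zero (pow_ne_zero _ h6) h8
    have h3 := Pool.Agent.H341R2.EC.csum_bound h6 h2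
    rw [ZMod.card] at h1 h3
    have h5 : ((p : ℝ) + 1 - pts E p) = -(Pool.Agent.H341R2.EC.csum V.c₄ V.c₆ : ℝ) := by
      rw [pts_eq, ← hV]
      have := congrArg (fun z : ℤ => (z : ℝ)) h1
      push_cast at this
      push_cast
      rw [this]
      ring
    rw [h5, abs_neg]
    linarith

/-- The primes of good reduction up to `x` at which the number of points is divisible by `t`. -/
noncomputable def PP (E : WeierstrassCurve ℤ) (t x : ℕ) : Finset ℕ := by
  classical
  exact (range (x + 1)).filter (fun p => Good E p ∧ t ∣ pts E p)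

theorem mem_PP {E : WeierstrassCurve ℤ} {t x p : ℕ} : p ∈ PP E t x ↔ p ≤ x ∧ Good E p ∧ t ∣ pts E p := by
  classical
  unfold PP
  rw [mem_filter, mem_range]
  constructor
  · rintro ⟨h1, h2⟩
    exact ⟨by omega, h2⟩
  · rintro ⟨h1, h2⟩
    exact ⟨by omega, h2⟩

theorem card_PP (E : WeierstrassCurve ℤ) (t x : ℕ) : (PP E t x).card ≤ x + 1 := by
  classical
  unfold PP
  refine (card_filter_le _ _).trans ?_
  rw [card_range]

theorem pts_le {E : WeierstrassCurve ℤ} {p x : ℕ} (h : Good E p) (hx : p ≤ x) : pts E p ≤ 10 * x := by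
  have h1 := (abs_le.1 (hasse h)).1
  have hp : (2 : ℝ) ≤ p := by exact_mod_cast h.1.two_le
  have h2 : √(p : ℝ) ≤ p := by
    rw [Real.sqrt_le_left (by linarith)]
    nlinarith
  have h3 : (p : ℝ) ≤ x := by exact_mod_cast hx
  have h4 : (pts E p : ℝ) ≤ 10 * x := by linarith
  exact_mod_cast h4

/-- The multiplicities. -/
noncomputable def ww (E : WeierstrassCurve ℤ) (t x n : ℕ) : ℕ := ((PP E t x).filter (fun p => pts E p / t = n)).card

theorem ww_le {E : WeierstrassCurve ℤ} {t x n : ℕ} (ht : 1 ≤ t) (hx : 1 ≤ x) : (ww E t x n : ℝ) ≤ 17 * √(x : ℝ) := by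
  classical
  have hx1 : (1 : ℝ) ≤ x := by exact_mod_cast hx
  have hs1 : 1 ≤ √(x : ℝ) := by
    rw [Real.one_le_sqrt]
    exact hx1
  obtain ⟨R, hR⟩ : ∃ R, R = 2 * √(x : ℝ) + 6 := ⟨_, rfl⟩
  obtain ⟨N, hN⟩ : ∃ N, N = t * n := ⟨_, rfl⟩
  have hsub : (PP E t x).filter (fun p => pts E p / t = n) ⊆
      (range (x + 1)).filter (fun p => |((p : ℝ) + 1 - N)| ≤ R) := by
    intro p hp
    rw [mem_filter, mem_PP] at hp
    obtain ⟨⟨h1, h2, h3⟩, h4⟩ := hp
    rw [mem_filter, mem_range]
    refine ⟨by omega, ?_⟩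
    have h5 : pts E p = N := by
      rw [hN, ← h4, Nat.mul_div_cancel' h3]
    have h6 := hasse h2
    rw [h5] at h6
    refine h6.trans ?_
    rw [hR]
    have : √(p : ℝ) ≤ √(x : ℝ) := Real.sqrt_le_sqrt (by exact_mod_cast h1)
    linarith
  have hcard : (((range (x + 1)).filter (fun p : ℕ => |((p : ℝ) + 1 - N)| ≤ R)).card : ℝ) ≤ 2 * R + 1 := by
    obtain ⟨S, hS⟩ : ∃ S, S = (range (x + 1)).filter (fun p : ℕ => |((p : ℝ) + 1 - N)| ≤ R) := ⟨_, rfl⟩
    rw [← hS]
    rcases S.eq_empty_or_nonempty with he | hne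
    · rw [he, card_empty]
      have : 0 ≤ R := by rw [hR]; linarith
      push_cast
      linarith
    · obtain ⟨u, hu⟩ : ∃ u, u = S.min' hne := ⟨_, rfl⟩
      obtain ⟨v, hv⟩ : ∃ v, v = S.max' hne := ⟨_, rfl⟩
      have hu1 : u ∈ S := by rw [hu]; exact S.min'_mem hne
      have hv1 : v ∈ S := by rw [hv]; exact S.max'_mem hne
      have huv : u ≤ v := by
        rw [hu]
        exact S.min'_le v hv1
      have h1 : S ⊆ Icc u v := by
        intro a ha
        rw [mem_Icc, hu, hv]
        exact ⟨S.min'_le a ha, S.le_max' a ha⟩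
      have h2 := card_le_card h1
      rw [Nat.card_Icc] at h2
      rw [hS, mem_filter] at hu1 hv1
      have e1 := (abs_le.1 hu1.2).1
      have e2 := (abs_le.1 hv1.2).2
      have h3 : (S.card : ℝ) ≤ v + 1 - u := by
        have : S.card + u ≤ v + 1 := by omega
        have : ((S.card + u : ℕ) : ℝ) ≤ ((v + 1 : ℕ) : ℝ) := by exact_mod_cast this
        push_cast at this
        linarith
      linarith
  have h7 : (ww E t x n : ℝ) ≤ 2 * R + 1 := by
    unfold ww
    refine le_trans ?_ hcard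
    exact_mod_cast card_le_card hsub
  rw [hR] at h7
  linarith

theorem sum_ww {E : WeierstrassCurve ℤ} {t x : ℕ} (f : ℕ → ℝ) :
    ∑ p ∈ PP E t x, f (pts E p / t) = ∑ n ∈ range (10 * x + 1), (ww E t x n : ℝ) * f n := by
  classical
  rw [← sum_fiberwise_of_maps_to (t := range (10 * x + 1)) (g := fun p => pts E p / t)]
  · refine sum_congr rfl (fun n _ => ?_)
    have h1 : ∀ p ∈ (PP E t x).filter (fun p => pts E p / t = n), f (pts E p / t) = f n := by
      intro p hp
      rw [mem_filter] at hp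
      rw [hp.2]
    rw [sum_congr rfl h1, sum_const, nsmul_eq_mul]
    rfl
  · intro p hp
    rw [mem_PP] at hp
    rw [mem_range]
    have h1 := pts_le hp.2.1 hp.1
    have h2 := Nat.div_le_self (pts E p) t
    omega

theorem PP_empty {E : WeierstrassCurve ℤ} {t x : ℕ} (h : 10 * x < t) : PP E t x = ∅ := by
  rw [eq_empty_iff_forall_notMem]
  intro p hp
  rw [mem_PP] at hp
  have h1 := pts_le hp.2.1 hp.1
  have h2 := Nat.le_of_dvd (pts_pos E p) hp.2.2
  omega

end Pool.Agent.Q106.KB
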