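import Pool.Agent.Q106.KB.Asym

/-!
# The constant of the refined Koblitz conjecture and the constants of the sieved models

`unitCount E t m x`: the number of the good `p ≤ x` such that `N_p` is `t` times a unit modulo `m`; `const δ t n`: the
constant in the model of level `n! / t`.
-/

set_option autoImplicit false

namespace Pool.Agent.Q106.KB

open Finset MeasureTheory ProbabilityTheory Filter
open scoped Topology
open Pool.Agent.Q120.GM (IsModel level prodMeasure trueSet)

/-- The number of the good `p ≤ x` such that `N_p` is `t` times a unit modulo `m`. -/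
noncomputable def unitCount (E : WeierstrassCurve ℤ) (t m x : ℕ) : ℝ :=
  ({p : ℕ | p ≤ x ∧ Good E p ∧ ∃ u : ZMod m, IsUnit u ∧ ((pts E p : ℕ) : ZMod m) = (t : ZMod m) * u}.ncard : ℝ)

/-- The constant in the model of level `n! / t`: `(Q / φ(Q)) δ(n!)` with `Q = n! / t`. -/
noncomputable def const (δ : ℕ → ℝ) (t n : ℕ) : ℝ :=
  ((n.factorial / t : ℕ) : ℝ) / Nat.totient (n.factorial / t) * δ n.factorial

theorem unit_iff {t Q : ℕ} (ht1 : 1 ≤ t) (hQ : 1 ≤ Q) (N : ℕ) :
    (t ∣ N ∧ (N / t).Coprime Q) ↔ ∃ u : ZMod (t * Q), IsUnit u ∧ ((N : ℕ) : ZMod (t * Q)) = (t : ZMod (t * Q)) * u := by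
  haveI : NeZero (t * Q) := ⟨by positivity⟩
  haveI : NeZero Q := ⟨by omega⟩
  constructor
  · rintro ⟨⟨n, rfl⟩, h2⟩
    rw [Nat.mul_div_cancel_left n (by omega)] at h2
    obtain ⟨v, hv⟩ := ZMod.unitsMap_surjective (m := t * Q) (n := Q) (dvd_mul_left Q t) (ZMod.unitOfCoprime n h2)
    refine ⟨(v : ZMod (t * Q)), v.isUnit, ?_⟩
    have h3 : ((((v : ZMod (t * Q)).val : ℕ)) : ZMod Q) = (n : ZMod Q) := by
      have h4 := congrArg (fun z : (ZMod Q)ˣ => (z : ZMod Q)) hv
      simp only [ZMod.unitsMap_val, ZMod.coe_unitOfCoprime] at h4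
      rw [← h4, ZMod.natCast_val]
    rw [ZMod.natCast_eq_natCast_iff] at h3
    have h5 : (t * (v : ZMod (t * Q)).val) ≡ t * n [MOD t * Q] := h3.mul_left' t
    have h6 := (ZMod.natCast_eq_natCast_iff _ _ _).2 h5
    push_cast at h6
    rw [ZMod.natCast_zmod_val] at h6
    push_cast
    exact h6.symm
  · rintro ⟨u, hu, h⟩
    have h1 : ((N : ℕ) : ZMod (t * Q)) = ((t * u.val : ℕ) : ZMod (t * Q)) := by
      push_cast
      rw [ZMod.natCast_zmod_val]
      exact h
    rw [ZMod.natCast_eq_natCast_iff] at h1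
    have h2 : t ∣ N := by
      have h3 : N ≡ t * u.val [MOD t] := Nat.ModEq.of_dvd (dvd_mul_right t Q) h1
      have h4 : N ≡ 0 [MOD t] := h3.trans (Nat.modEq_zero_iff_dvd.2 (dvd_mul_right _ _))
      exact Nat.modEq_zero_iff_dvd.1 h4
    obtain ⟨n, rfl⟩ := h2
    refine ⟨dvd_mul_right _ _, ?_⟩
    rw [Nat.mul_div_cancel_left n (by omega)]
    have h3 : n ≡ u.val [MOD Q] := Nat.ModEq.mul_left_cancel' (by omega) h1
    have h4 : (u.val).Coprime (t * Q) := by
      have := (ZMod.isUnit_iff_coprime u.val (t * Q)).1 (by rw [ZMod.natCast_zmod_val]; exact hu)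
      exact this
    have h5 : (u.val).Coprime Q := Nat.Coprime.coprime_mul_left_right h4
    have h6 := h3.gcd_eq
    unfold Nat.Coprime at *
    rw [h6]
    exact h5

theorem mul_dvd_fact {a b n : ℕ} (ha : 1 ≤ a) (hab : a < b) (hb : b ≤ n) : a * b ∣ n.factorial := by
  have h1 : a ∣ (b - 1).factorial := Nat.dvd_factorial (by omega) (by omega)
  have h2 : b * (b - 1).factorial = b.factorial := Nat.mul_factorial_pred (by omega)
  have h3 : a * b ∣ b.factorial := by
    rw [← h2, mul_comm a b]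
    exact Nat.mul_dvd_mul_left b h1
  exact h3.trans (Nat.factorial_dvd_factorial hb)

theorem primes_eq {t n : ℕ} (ht1 : 1 ≤ t) (hn : 2 * t ≤ n) : (n.factorial / t).primeFactors = n.factorial.primeFactors := by
  have htn : t ∣ n.factorial := Nat.dvd_factorial (by omega) (by omega)
  obtain ⟨R, hR⟩ := htn
  have hR0 : R ≠ 0 := by
    rintro rfl
    rw [mul_zero] at hR
    exact Nat.factorial_ne_zero n hR
  rw [hR, Nat.mul_div_cancel_left R (by omega)]
  refine Finset.Subset.antisymm (Nat.primeFactors_mono (dvd_mul_left R t) (by positivity)) ?_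
  intro l hl
  rw [Nat.mem_primeFactors] at hl ⊢
  obtain ⟨hlp, hld, _⟩ := hl
  refine ⟨hlp, ?_, hR0⟩
  rw [← hR] at hld
  have hln : l ≤ n := (hlp.dvd_factorial).1 hld
  rcases lt_trichotomy l t with h | h | h
  · have h1 := mul_dvd_fact hlp.one_lt.le h (by omega : t ≤ n)
    rw [hR, mul_comm l t] at h1
    exact Nat.dvd_of_mul_dvd_mul_left (by omega) h1
  · have h1 := mul_dvd_fact ht1 (by omega : t < 2 * t) hn
    rw [hR] at h1
    have h2 := Nat.dvd_of_mul_dvd_mul_left (by omega) h1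
    rw [h]
    exact (dvd_mul_left t 2).trans h2
  · have h1 := mul_dvd_fact ht1 h hln
    rw [hR] at h1
    exact Nat.dvd_of_mul_dvd_mul_left (by omega) h1

/-- The constants of the models tend to the constant of the question. -/
theorem const_lim {t : ℕ} (ht1 : 1 ≤ t) {δ : ℕ → ℝ} {C : ℝ} (h : Tendsto (fun n : ℕ => δ (Nat.factorial n) /
    ∏ l ∈ (Nat.factorial n).primeFactors, (1 - 1 / (l : ℝ))) atTop (𝓝 C)) : Tendsto (const δ t) atTop (𝓝 C) := by
  refine h.congr' ?_
  filter_upwards [eventually_ge_atTop (2 * t)] with n hn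
  unfold const
  obtain ⟨R, hR⟩ : ∃ R, R = n.factorial / t := ⟨_, rfl⟩
  have hp := primes_eq ht1 hn
  rw [← hR] at hp ⊢
  have hR0 : R ≠ 0 := by
    rw [hR]
    have h1 : t ∣ n.factorial := Nat.dvd_factorial (by omega) (by omega)
    have h2 : t ≤ n.factorial := Nat.le_of_dvd (Nat.factorial_pos n) h1
    have := Nat.div_pos h2 (by omega)
    omega
  have h1 : (Nat.totient R : ℝ) = R * ∏ p ∈ R.primeFactors, (1 - (p : ℝ)⁻¹) := by
    have h2 := Nat.totient_eq_mul_prod_factors R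
    have h3 := congrArg (fun z : ℚ => (z : ℝ)) h2
    push_cast at h3
    exact h3
  rw [hp] at h1
  have h4 : (0 : ℝ) < Nat.totient R := by exact_mod_cast Nat.totient_pos.2 (by omega : 0 < R)
  have h5 : (0 : ℝ) < R := by exact_mod_cast (by omega : 0 < R)
  have h6 : ∏ l ∈ (Nat.factorial n).primeFactors, (1 - 1 / (l : ℝ)) = (Nat.totient R : ℝ) / R := by
    rw [h1]
    simp only [one_div]
    field_simp
  rw [h6]
  field_simp

theorem unitCount_eq {t Q : ℕ} (ht1 : 1 ≤ t) (hQ : 1 ≤ Q) (E : WeierstrassCurve ℤ) (x : ℕ) :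
    unitCount E t (t * Q) x = cnt Q E t x := by
  unfold unitCount cnt
  congr 1
  congr 1
  ext p
  constructor
  · rintro ⟨h1, h2, h3⟩
    obtain ⟨h4, h5⟩ := (unit_iff ht1 hQ _).2 h3
    exact ⟨h1, h2, h4, h5⟩
  · rintro ⟨h1, h2, h4, h5⟩
    exact ⟨h1, h2, (unit_iff ht1 hQ _).1 ⟨h4, h5⟩⟩

/-- The iff from the difference. -/
theorem iff_of {u v : ℕ → ℝ} {q δ : ℝ} (hq : 0 < q) (h : Tendsto (fun x => u x - q * v x) atTop (𝓝 0)) :
    Tendsto v atTop (𝓝 δ) ↔ Tendsto u atTop (𝓝 (q * δ)) := by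
  constructor
  · intro hv
    have := h.add (hv.const_mul q)
    rw [zero_add] at this
    refine this.congr (fun x => by ring)
  · intro hu
    have := (hu.sub h).const_mul q⁻¹
    rw [sub_zero, inv_mul_cancel_left₀ hq.ne'] at this
    refine this.congr (fun x => ?_)
    field_simp
    ring

/-- The asymptotic law in the model of level `Q`, for all curves at once. -/
theorem models_asym (Ω : Type) (_ : MeasurableSpace Ω) (μ : Measure Ω) (_ : IsProbabilityMeasure μ) (A : Ω → Set ℕ) (Q : ℕ)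
    (hQ : 1 ≤ Q) (hA : IsModel μ (level Q) A) : ∀ᵐ ω ∂μ, ∀ (E : WeierstrassCurve ℤ) (t : ℕ), 1 ≤ t → ∀ δ : ℝ,
      (Tendsto (fun x : ℕ => cnt Q E t x / Nat.primeCounting x) atTop (𝓝 δ) ↔
      Tendsto (fun x : ℕ => kob (A ω) E t x / (x / Real.log x ^ 2)) atTop (𝓝 ((Q : ℝ) / Nat.totient Q * δ))) := by
  filter_upwards [unif hA] with ω hω E t ht1 δ
  exact iff_of (qpos hQ) (asym hQ hω E ht1)

end Pool.Agent.Q106.KB
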