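import Pool.Agent.Q106.KB.Bern
import Pool.Agent.Q106.KB.Curve
import Pool.Agent.Q120.GM.Exists

/-!
# The uniform law for the numbers of points in the models
-/

set_option autoImplicit false

namespace Pool.Agent.Q106.KB

open Finset MeasureTheory ProbabilityTheory Filter Pool.Agent.Q120.GM
open scoped Topology

/-- The number of the primes `p ≤ x` of good reduction with `t ∣ N_p` and `N_p / t ∈ A`. -/
noncomputable def kob (A : Set ℕ) (E : WeierstrassCurve ℤ) (t x : ℕ) : ℝ :=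
  ({p : ℕ | p ≤ x ∧ Good E p ∧ t ∣ pts E p ∧ pts E p / t ∈ A}.ncard : ℝ)

/-- The predicted number: `Q / φ(Q)` times the sum of `1 / log (N_p / t)` over the primes `p ≤ x` of good reduction for which
`N_p / t` is an integer coprime to `Q`. -/
noncomputable def pred (Q : ℕ) (E : WeierstrassCurve ℤ) (t x : ℕ) : ℝ :=
  (Q : ℝ) / Nat.totient Q *
    ∑ p ∈ PP E t x, if (pts E p / t).Coprime Q then (Real.log ((pts E p / t : ℕ) : ℝ))⁻¹ else 0

/-- The height. -/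
def ht (E : WeierstrassCurve ℤ) : ℕ := 3 + E.a₁.natAbs + E.a₂.natAbs + E.a₃.natAbs + E.a₄.natAbs + E.a₆.natAbs

/-- The expected number. -/
noncomputable def mn (Q : ℕ) (E : WeierstrassCurve ℤ) (t x : ℕ) : ℝ := ∑ p ∈ PP E t x, level Q (pts E p / t)

/-- The difference between the probability and `q / log n`. -/
noncomputable def dd (Q n : ℕ) : ℝ :=
  |level Q n - (Q : ℝ) / Nat.totient Q * (if n.Coprime Q then (Real.log (n : ℝ))⁻¹ else 0)|

theorem dd_zero (Q : ℕ) : ∃ N₀ : ℕ, ∀ n ≥ N₀, dd Q n = 0 := by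
  have h1 : Tendsto (fun n : ℕ => Real.log (n : ℝ)) atTop atTop := Real.tendsto_log_atTop.comp tendsto_natCast_atTop_atTop
  obtain ⟨N₀, hN₀⟩ := eventually_atTop.1 (h1.eventually_ge_atTop (max 1 ((Q : ℝ) / Nat.totient Q)))
  refine ⟨N₀, fun n hn => ?_⟩
  have h2 := hN₀ n hn
  have h3 : (1 : ℝ) ≤ Real.log n := (le_max_left _ _).trans h2
  have h4 : (Q : ℝ) / Nat.totient Q ≤ Real.log n := (le_max_right _ _).trans h2
  unfold dd level
  by_cases h : n.Coprime Q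
  · rw [if_pos h, if_pos h, min_eq_right, abs_eq_zero]
    · rw [div_eq_mul_inv ((Q : ℝ) / Nat.totient Q) (Real.log n), sub_self]
    · rw [div_le_one (by linarith)]
      exact h4
  · rw [if_neg h, if_neg h]
    simp

theorem dd_nonneg (Q n : ℕ) : 0 ≤ dd Q n := abs_nonneg _

/-- The expected number and the predicted number. -/
theorem mn_pred (Q : ℕ) : ∃ C : ℝ, 0 ≤ C ∧ ∀ (E : WeierstrassCurve ℤ) (t x : ℕ), 1 ≤ t → 1 ≤ x →
    |mn Q E t x - pred Q E t x| ≤ C * √(x : ℝ) := by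
  obtain ⟨N₀, hN₀⟩ := dd_zero Q
  refine ⟨17 * ∑ n ∈ range N₀, dd Q n, mul_nonneg (by norm_num) (sum_nonneg (fun n _ => dd_nonneg Q n)), ?_⟩
  intro E t x ht hx
  have h1 : mn Q E t x - pred Q E t x = ∑ p ∈ PP E t x, (level Q (pts E p / t) -
      (Q : ℝ) / Nat.totient Q * (if (pts E p / t).Coprime Q then (Real.log ((pts E p / t : ℕ) : ℝ))⁻¹ else 0)) := by
    unfold mn pred
    rw [mul_sum, sum_sub_distrib]
  have h2 : |mn Q E t x - pred Q E t x| ≤ ∑ p ∈ PP E t x, dd Q (pts E p / t) := by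
    rw [h1]
    exact abs_sum_le_sum_abs _ _
  refine h2.trans ?_
  rw [sum_ww (dd Q)]
  have h3 : ∑ n ∈ range (10 * x + 1), (ww E t x n : ℝ) * dd Q n ≤ ∑ n ∈ range (10 * x + 1), 17 * √(x : ℝ) * dd Q n :=
    sum_le_sum (fun n _ => mul_le_mul_of_nonneg_right (ww_le ht hx) (dd_nonneg Q n))
  refine h3.trans ?_
  rw [← mul_sum]
  have h4 : ∑ n ∈ range (10 * x + 1), dd Q n ≤ ∑ n ∈ range N₀, dd Q n := by
    have h5 : ∑ n ∈ range (10 * x + 1), dd Q n = ∑ n ∈ (range (10 * x + 1)).filter (fun n => n < N₀), dd Q n := by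
      rw [sum_filter]
      refine sum_congr rfl (fun n _ => ?_)
      split_ifs with h
      · rfl
      · exact hN₀ n (by omega)
    rw [h5]
    refine sum_le_sum_of_subset_of_nonneg ?_ (fun n _ _ => dd_nonneg Q n)
    intro n hn
    rw [mem_filter] at hn
    exact mem_range.2 hn.2
  have h6 : 0 ≤ √(x : ℝ) := Real.sqrt_nonneg _
  calc 17 * √(x : ℝ) * ∑ n ∈ range (10 * x + 1), dd Q n ≤ 17 * √(x : ℝ) * ∑ n ∈ range N₀, dd Q n :=
        mul_le_mul_of_nonneg_left h4 (by positivity)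
    _ = _ := by ring

section

variable {Ω : Type*} [MeasurableSpace Ω] {μ : Measure Ω} [IsProbabilityMeasure μ] {A : Ω → Set ℕ} {Q : ℕ}

omit [MeasurableSpace Ω] in
theorem kob_eq (A : Ω → Set ℕ) (E : WeierstrassCurve ℤ) (t x : ℕ) (ω : Ω) :
    kob (A ω) E t x = ∑ n ∈ range (10 * x + 1), (ww E t x n : ℝ) * ind A n ω := by
  classical
  rw [← sum_ww (fun n => ind A n ω)]
  unfold kob
  have h1 : {p : ℕ | p ≤ x ∧ Good E p ∧ t ∣ pts E p ∧ pts E p / t ∈ A ω} =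
      (((PP E t x).filter (fun p => pts E p / t ∈ A ω) : Finset ℕ) : Set ℕ) := by
    ext p
    rw [coe_filter]
    constructor
    · rintro ⟨h1, h2, h3, h4⟩
      exact ⟨mem_PP.2 ⟨h1, h2, h3⟩, h4⟩
    · rintro ⟨h1, h4⟩
      obtain ⟨h1, h2, h3⟩ := mem_PP.1 h1
      exact ⟨h1, h2, h3, h4⟩
  rw [h1, Set.ncard_coe_finset, card_filter]
  push_cast
  refine sum_congr rfl (fun p _ => ?_)
  unfold ind
  by_cases h : pts E p / t ∈ A ω
  · rw [if_pos h, Set.indicator_of_mem (s := {ω | pts E p / t ∈ A ω}) h]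
  · rw [if_neg h, Set.indicator_of_notMem (s := {ω | pts E p / t ∈ A ω}) h]

theorem one_fail (hA : IsModel μ (level Q) A) {E : WeierstrassCurve ℤ} {t x : ℕ} (ht1 : 1 ≤ t) (hx : 1 ≤ x) {ε h : ℝ}
    (hh : 1 ≤ h) (hhx : h ≤ (x : ℝ) ^ (1 / 2 - 2 * ε)) :
    μ.real {ω | 1 / 2 * ((x : ℝ) ^ (3 / 4 + ε) * √h) ≤ |kob (A ω) E t x - mn Q E t x|} ≤
      2 * Real.exp (-((x : ℝ) ^ (2 * ε) * h / 544)) := by
  have hx1 : (1 : ℝ) ≤ x := by exact_mod_cast hx
  have hx0 : (0 : ℝ) < x := by linarith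
  have hs : √(x : ℝ) = (x : ℝ) ^ (1 / 2 : ℝ) := Real.sqrt_eq_rpow _
  obtain ⟨V, hV⟩ : ∃ V : ℝ, V = 34 * (x : ℝ) ^ (3 / 2 : ℝ) := ⟨_, rfl⟩
  have hV0 : 0 < V := by rw [hV]; positivity
  have e1 : ∀ ω, |kob (A ω) E t x - mn Q E t x| =
      |∑ n ∈ range (10 * x + 1), (ww E t x n : ℝ) * (ind A n ω - level Q n)| := by
    intro ω
    rw [kob_eq]
    unfold mn
    rw [sum_ww (level Q), ← sum_sub_distrib]
    congr 1
    exact sum_congr rfl (fun n _ => by ring)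
  have hK : ∀ n ∈ range (10 * x + 1), |(ww E t x n : ℝ)| ≤ 17 * √(x : ℝ) := by
    intro n _
    rw [abs_of_nonneg (Nat.cast_nonneg _)]
    exact ww_le ht1 hx
  have hsum : ∑ n ∈ range (10 * x + 1), level Q n * (ww E t x n : ℝ) ^ 2 ≤ V := by
    have h1 : ∀ n ∈ range (10 * x + 1), level Q n * (ww E t x n : ℝ) ^ 2 ≤ 17 * √(x : ℝ) * (ww E t x n : ℝ) := by
      intro n _
      have h2 := level_le_one Q n
      have h3 := level_nonneg Q n
      have h4 : (0 : ℝ) ≤ ww E t x n := Nat.cast_nonneg _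
      have h5 := ww_le (E := E) (n := n) ht1 hx
      calc level Q n * (ww E t x n : ℝ) ^ 2 ≤ 1 * (ww E t x n : ℝ) ^ 2 := mul_le_mul_of_nonneg_right h2 (sq_nonneg _)
        _ = (ww E t x n : ℝ) * (ww E t x n : ℝ) := by ring
        _ ≤ _ := mul_le_mul_of_nonneg_right h5 h4
    refine (sum_le_sum h1).trans ?_
    rw [← mul_sum]
    have h2 := sum_ww (E := E) (t := t) (x := x) (fun _ => (1 : ℝ))
    simp only [mul_one, sum_const, nsmul_eq_mul] at h2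
    rw [← h2]
    have h3 : ((PP E t x).card : ℝ) ≤ x + 1 := by exact_mod_cast card_PP E t x
    have h4 : ((PP E t x).card : ℝ) ≤ 2 * x := by linarith
    have h5 : (x : ℝ) ^ (3 / 2 : ℝ) = √(x : ℝ) * x := by
      rw [hs, show (3 / 2 : ℝ) = 1 / 2 + 1 by norm_num, Real.rpow_add hx0, Real.rpow_one]
    rw [hV, h5]
    have h6 := Real.sqrt_nonneg (x : ℝ)
    nlinarith
  have hl : 0 ≤ 1 / 2 * ((x : ℝ) ^ (3 / 4 + ε) * √h) := by positivity
  have hlK : 1 / 2 * ((x : ℝ) ^ (3 / 4 + ε) * √h) * (17 * √(x : ℝ)) ≤ 2 * V := by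
    have h1 : √h ≤ (x : ℝ) ^ (1 / 4 - ε) := by
      rw [Real.sqrt_le_left (by positivity), ← Real.rpow_natCast, ← Real.rpow_mul hx0.le]
      refine hhx.trans (le_of_eq ?_)
      congr 1
      push_cast
      ring
    have h2 : (x : ℝ) ^ (3 / 4 + ε) * (x : ℝ) ^ (1 / 4 - ε) * (x : ℝ) ^ (1 / 2 : ℝ) = (x : ℝ) ^ (3 / 2 : ℝ) := by
      rw [← Real.rpow_add hx0, ← Real.rpow_add hx0]
      congr 1
      ring
    rw [hV, ← h2, hs]
    have h3 : 0 ≤ (x : ℝ) ^ (3 / 4 + ε) * (x : ℝ) ^ (1 / 2 : ℝ) := by positivity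
    have h4 := mul_le_mul_of_nonneg_left h1 h3
    nlinarith
  have h0 := bern hA (range (10 * x + 1)) (fun n => (ww E t x n : ℝ)) hK hV0 hsum hl hlK
  have e2 : {ω | 1 / 2 * ((x : ℝ) ^ (3 / 4 + ε) * √h) ≤ |kob (A ω) E t x - mn Q E t x|} =
      {ω | 1 / 2 * ((x : ℝ) ^ (3 / 4 + ε) * √h) ≤ |∑ n ∈ range (10 * x + 1), (ww E t x n : ℝ) * (ind A n ω - level Q n)|} := by
    ext ω
    rw [Set.mem_setOf_eq, Set.mem_setOf_eq, e1 ω]
  rw [e2]
  refine h0.trans (le_of_eq ?_)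
  congr 2
  rw [hV]
  have h1 : (1 / 2 * ((x : ℝ) ^ (3 / 4 + ε) * √h)) ^ 2 = 1 / 4 * ((x : ℝ) ^ (3 / 2 : ℝ) * (x : ℝ) ^ (2 * ε) * h) := by
    have h3 : ((x : ℝ) ^ (3 / 4 + ε)) ^ 2 = (x : ℝ) ^ (3 / 2 + 2 * ε) := by
      rw [← Real.rpow_natCast, ← Real.rpow_mul hx0.le]
      congr 1
      push_cast
      ring
    rw [mul_pow, mul_pow, Real.sq_sqrt (by linarith), ← Real.rpow_add hx0, h3]
    norm_num
  rw [h1]
  have h2 : (0 : ℝ) < (x : ℝ) ^ (3 / 2 : ℝ) := by positivity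
  field_simp
  norm_num

end

end Pool.Agent.Q106.KB
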